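import Pool.Agent.H53.MW.Defs

/-!
MP_c62aed_lc, permanent lines and work memory: the rows.
Page: /team-store/R28_c62aed_MEMORY.md
-/

set_option autoImplicit false

namespace Pool.Agent.H53.MW

open Finset
open Pool.Agent.H53.MC (Clause Falsified SatBy Line Circuit U Viol toC scope Ins cnt H1 Covers InR
  Bad cf)
open Pool.Agent.H15.FLX (Scopes Signs clause cnf Few en idx FG BR)
open Pool.Agent.H97.SHL (DT bl)

/-! ### Spread sets -/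

/-- INV: the cube matters only on `A`; agreement of the points of a spread set. -/
def T_INV : Prop :=
  ∀ {n M k : ℕ} (g : Fin M → Fin k → Fin n) (d s₀ : ℕ) (A : Finset (Fin n)) (x y : Fin n → Bool)
    (Q : Finset (Fin n → Bool)), (∀ i ∈ A, x i = y i) → Sp g d s₀ (A, x) Q → Sp g d s₀ (A, y) Q

/-- HC: the heaviest cube. -/
def T_HC : Prop :=
  ∀ {n M k : ℕ} (g : Fin M → Fin k → Fin n) (d s₀ : ℕ) (Z : Finset (Fin n → Bool)), Z.Nonempty →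
    ∃ (A : Finset (Fin n)) (x : Fin n → Bool), Sp g d s₀ (A, x) (cb Z A x) ∧
      Z.card ≤ (cb Z A x).card * 2 ^ (d * s₀)

/-- SZ: large spread sets have small cubes. -/
def T_SZ : Prop :=
  ∀ {n M k : ℕ} (g : Fin M → Fin k → Fin n) (d s₀ w : ℕ) (p : Finset (Fin n) × (Fin n → Bool))
    (Q : Finset (Fin n → Bool)), w ≤ n → Sp g d s₀ p Q → 2 ^ (n - w) < Q.card → p.1.card < w

/-- SV: a clause which is not inside the cube is violated by few points of a spread set. -/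
def T_SV : Prop :=
  ∀ {n M k : ℕ} (g : Fin M → Fin k → Fin n) (d s₀ w : ℕ), (∀ j, Function.Injective (g j)) →
    H1 g w s₀ → ∀ (p : Finset (Fin n) × (Fin n → Bool)) (Q : Finset (Fin n → Bool)),
    Sp g d s₀ p Q → p.1.card < w → ∀ c : U M k, ¬ Ins g p c →
      Nat.card {y // y ∈ Q ∧ Viol g c y} * 2 ^ d ≤ Q.card

/-- SC: if less than `2 ^ d` clauses cover a spread set, then one of them is inside the cube. -/
def T_SC : Prop :=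
  ∀ {n M k : ℕ} (g : Fin M → Fin k → Fin n) (d s₀ w : ℕ), (∀ j, Function.Injective (g j)) →
    H1 g w s₀ → ∀ (p : Finset (Fin n) × (Fin n → Bool)) (Q : Finset (Fin n → Bool)),
    Sp g d s₀ p Q → p.1.card < w → ∀ T : Finset (U M k), T.card < 2 ^ d → Covers g T Q →
      ∃ c ∈ T, Ins g p c

/-- DEC: decompositions exist. -/
def T_DEC : Prop :=
  ∀ {n M k : ℕ} (g : Fin M → Fin k → Fin n) (d s₀ θ : ℕ), 1 ≤ θ →
    ∀ R : Finset (Fin n → Bool), Dec g d s₀ θ (θ * 2 ^ (d * s₀)) R (dc g d s₀ θ R)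

/-! ### Kernels and exceptions -/

/-- KSX: kernels are monotone, the kernels of a function are a chain. -/
def T_KSX : Prop :=
  ∀ {n M k : ℕ} (g : Fin M → Fin k → Fin n) (d s₀ w θ : ℕ), w ≤ n → 2 ^ (n - w) < θ →
    (∀ B B' : Finset (Fin n → Bool), B ⊆ B' → KerS g d s₀ θ B ⊆ KerS g d s₀ θ B') ∧
    (∀ B : Finset (Fin n → Bool), ∀ p ∈ KerS g d s₀ θ B, p.1.card < w) ∧
    ∀ (f : ℕ → (Fin n → Bool) → ℝ) (i : ℕ), IsChain (· ⊆ ·) (KS g d s₀ θ f i)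

/-- LXS (Lemma X): the exceptions of a chain. -/
def T_LXS : Prop :=
  ∀ {n M k : ℕ} (g : Fin M → Fin k → Fin n) (d s₀ θ : ℕ), ∀ 𝒞 : Set (Finset (Fin n → Bool)),
    IsChain (· ⊆ ·) 𝒞 →
      Nat.card {x : Fin n → Bool // ∃ B ∈ 𝒞, x ∈ ErrS g d s₀ θ B} ≤ 2 ^ (d * s₀) * θ

/-- LSS (Lemma S, stability). -/
def T_LSS : Prop :=
  ∀ {n M k : ℕ} (g : Fin M → Fin k → Fin n) (d s₀ θ : ℕ), ∀ 𝓛 : Finset (Line n),
    ∃ E : Finset (Fin n → Bool), E.card ≤ 𝓛.card * (2 ^ (d * s₀) * θ) ∧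
      ∀ L ∈ 𝓛, ErrS g d s₀ θ (Lᶜ \ E) = ∅

/-- EBS: the number of the exceptions of real functions. -/
def T_EBS : Prop :=
  ∀ {n M k : ℕ} (g : Fin M → Fin k → Fin n) (d s₀ θ : ℕ) (f : ℕ → (Fin n → Bool) → ℝ) (i : ℕ),
    (ES g d s₀ θ f i).card ≤ i * (2 ^ (d * s₀) * θ)

/-- CHN: a chain of sets of assignments is short. -/
def T_CHN : Prop :=
  ∀ {n : ℕ} (𝒞 : Set (Finset (Fin n → Bool))), IsChain (· ⊆ ·) 𝒞 → Nat.card 𝒞 ≤ 2 ^ n + 1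

/-- LKS: a formula which hits the kernel covers the set by `q` clauses, up to exceptions. -/
def T_LKS : Prop :=
  ∀ {n M k : ℕ} (g : Fin M → Fin k → Fin n) (d s₀ θ m q : ℕ)
    (𝒦 : Set (Set (Finset (Fin n) × (Fin n → Bool)))) (B : Finset (Fin n → Bool))
    (F : Fin m → U M k), ¬ Bad g q 𝒦 F → KerS g d s₀ θ B ∈ 𝒦 → (∀ p ∈ KerS g d s₀ θ B, Hit g F p) →
      Lfc g F q (B \ ErrS g d s₀ θ B)

/-! ### Random signs -/

/-- MGF: the exponential moment. -/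
def T_MGF : Prop :=
  ∀ {n k M μ : ℕ} (g : Fin M → Fin k → Fin n), (∀ j, Function.Injective (g j)) →
    ∀ (W : U M k → ℝ) (S V : ℝ), (∀ c, 0 ≤ W c ∧ W c ≤ 1) → ∑ c, W c ≤ S →
      (Nat.card {σ : Signs n M μ // V ≤ ∑ l, W (FG g σ l)} : ℝ) * 2 ^ V ≤
        Real.exp (μ * S / 2 ^ k) * Nat.card (Signs n M μ)

/-- LOS: few signs lose more than `1 / a` of a spread set in one step. -/
def T_LOS : Prop :=
  ∀ {n k M μ : ℕ} (g : Fin M → Fin k → Fin n) (w s₀ d a E : ℕ), (∀ j, Function.Injective (g j)) →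
    H1 g w s₀ → 1 ≤ a → 2 * a * E ≤ 2 ^ d → 4 * a * (s₀ * μ) ≤ 2 ^ k →
    ∀ p : Finset (Fin n → Bool) × Finset (Fin n), p.1.Nonempty →
      (∀ x ∈ p.1, Sp g d s₀ (p.2, x) p.1) → p.2.card < w →
    ∀ 𝒟 : Finset (Finset (Fin n → Bool) × Finset (Fin n)),
      (∀ p' ∈ 𝒟, ∀ p'' ∈ 𝒟, p' ≠ p'' → Disjoint p'.1 p''.1) → (∀ p' ∈ 𝒟, p'.2.card < w) →
      (∀ p' ∈ 𝒟, ∀ x ∈ p'.1, ∀ y ∈ p'.1, ∀ i ∈ p'.2, x i = y i) →
      Nat.card {σ : Signs n M μ // ¬ Rg g (FG g σ) a p 𝒟} * 2 ^ E ≤ Nat.card (Signs n M μ)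

/-- QPC: the number of the queries. -/
def T_QPC : Prop :=
  ∀ {n : ℕ} (𝓠 : Finset (Line n)) (t : ℕ), 𝓠.card ≤ 2 ^ t → (qp 𝓠 t).card ≤ 2 ^ ((t + 1) * t)

/-- REG: few signs are irregular. -/
def T_REG : Prop :=
  ∀ {n k M μ : ℕ} (g : Fin M → Fin k → Fin n) (γ : ℝ) (t w d s₀ q θ : ℕ),
    (∀ j, Function.Injective (g j)) → H1 g w s₀ → ParM γ n t k μ w d s₀ q → th0 n w ≤ θ →
    ∀ 𝒬 𝓕 : Finset (Finset (Fin n → Bool)), 𝒬.card ≤ 2 ^ ((t + 1) * t) →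
      𝓕.card ≤ 2 ^ (2 * n + 2) →
      Nat.card {σ : Signs n M μ // ¬ Reg g d s₀ (th0 n w) θ 𝒬 𝓕 (FG g σ)} * 2 ^ (t + 3) ≤
        Nat.card (Signs n M μ)

/-! ### Trees -/

/-- TRE: a decision tree for a spread set which is not hit has many leaves. -/
def T_TRE : Prop :=
  ∀ {n M k m : ℕ} (g : Fin M → Fin k → Fin n) (w s₀ d r : ℕ), (∀ j, Function.Injective (g j)) →
    H1 g w s₀ → w ≤ n → 1 ≤ n → r < 2 ^ d →
    ∀ (𝒬 : Finset (Finset (Fin n → Bool))) (F : Fin m → U M k) (A : Finset (Fin n))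
      (x : Fin n → Bool) (Q : Finset (Fin n → Bool)) (S : ℕ), Sp g d s₀ (A, x) Q →
      Rgl g d s₀ (th0 n w) 𝒬 F A Q → ¬ Hit g F (A, x) → DT 𝒬 (Lfc g F r) Q n S →
      Q.card ≤ 4 * (th0 n w * 2 ^ (d * s₀)) * S

/-- HTS: if a set of the family has a small decision tree, then its kernel is hit. -/
def T_HTS : Prop :=
  ∀ {n M k m : ℕ} (g : Fin M → Fin k → Fin n) (w s₀ d r s : ℕ), (∀ j, Function.Injective (g j)) →
    H1 g w s₀ → w ≤ n → 1 ≤ n → r < 2 ^ d →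
    ∀ (𝒬 𝓕 : Finset (Finset (Fin n → Bool))) (F : Fin m → U M k),
      Reg g d s₀ (th0 n w) (th1 n w d s₀ s) 𝒬 𝓕 F → ∀ B ∈ 𝓕, ∀ S, S ≤ s →
      DT 𝒬 (Lfc g F r) B n S → ∀ p ∈ KerS g d s₀ (th1 n w d s₀ s) B, Hit g F p

/-- DTR: decision trees for subsets. -/
def T_DTR : Prop :=
  ∀ (X : Type) [DecidableEq X] (𝓛 : Finset (Finset X)) (Lf : Finset X → Prop),
    (∀ Q Q', Lf Q → Q' ⊆ Q → Lf Q') → ∀ (Q : Finset X) (t s : ℕ), DT 𝓛 Lf Q t s →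
      (∀ Q', Q' ⊆ Q → DT 𝓛 Lf Q' t s) ∧
      ∀ (P : Finset X) (Lf' : Finset X → Prop), (∀ R, Lf R → Lf' (R ∩ P)) → DT 𝓛 Lf' (Q ∩ P) t s

/-- SES: a session is a decision tree. -/
def T_SES : Prop :=
  ∀ {n M k m : ℕ} (g : Fin M → Fin k → Fin n) (t q s : ℕ), (∀ j, Function.Injective (g j)) →
    1 ≤ t → s ≤ 2 ^ n → ∀ (F : Fin m → U M k) (P : Line n → Prop) (𝓠 : Finset (Line n))
      (E : Finset (Fin n → Bool)) (L : Line n), (∀ Q, P Q → Lfc g F q (Qᶜ \ E)) →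
      Session (Set.range (cf g F)) P 𝓠 t s L →
      ∃ S, S ≤ s ∧ DT (qp 𝓠 t) (Lfc g F (t * t + t * t * q)) (Lᶜ \ E) n S

/-! ### The two proofs -/

/-- PLM: every derived line has a small cover, and the formula hits the kernel of the line. -/
def T_PLM : Prop :=
  ∀ {n M k m : ℕ} (g : Fin M → Fin k → Fin n) (w s₀ d t q s : ℕ),
    (∀ j, Function.Injective (g j)) → H1 g w s₀ → w ≤ n → 1 ≤ n → 1 ≤ t →
    t * t + t * t * q < 2 ^ d → s ≤ 2 ^ n →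
    ∀ (𝓛 𝓠 : Finset (Line n)) (E : Finset (Fin n → Bool)),
      (∀ L ∈ 𝓛, ErrS g d s₀ (th1 n w d s₀ s) (Lᶜ \ E) = ∅) → ∀ F : Fin m → U M k,
      (∀ L ∈ 𝓛, ¬ Bad g q {KerS g d s₀ (th1 n w d s₀ s) (Lᶜ \ E)} F) →
      Reg g d s₀ (th0 n w) (th1 n w d s₀ s) (qp 𝓠 t) (𝓛.image fun L => Lᶜ \ E) F →
      ∀ L : Line n, DerivesL (Set.range (cf g F)) 𝓛 𝓠 t s L →
        L ∈ 𝓛 ∧ Lfc g F q (Lᶜ \ E) ∧ ∀ p ∈ KerS g d s₀ (th1 n w d s₀ s) (Lᶜ \ E), Hit g F p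

/-- PRM: the same for inequalities. -/
def T_PRM : Prop :=
  ∀ {n M k m : ℕ} (g : Fin M → Fin k → Fin n) (w s₀ d t q s N : ℕ),
    (∀ j, Function.Injective (g j)) → H1 g w s₀ → w ≤ n → 1 ≤ n → 1 ≤ t →
    t * t + t * t * q < 2 ^ d → s ≤ 2 ^ n →
    ∀ (𝓠 : Finset (Line n)) (f : ℕ → (Fin n → Bool) → ℝ) (𝓕 : Finset (Finset (Fin n → Bool))),
      (∀ i, i < N → ∀ a : ℝ, BR (ES g d s₀ (th1 n w d s₀ s) f i) (f i) a ∈ 𝓕) →
      ∀ F : Fin m → U M k, (∀ i, i < N → ¬ Bad g q (KS g d s₀ (th1 n w d s₀ s) f i) F) →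
      Reg g d s₀ (th0 n w) (th1 n w d s₀ s) (qp 𝓠 t) 𝓕 F →
      ∀ (i : ℕ) (a : ℝ), i < N → DerivesR (Set.range (cf g F)) f 𝓠 t s i a →
        Lfc g F q (BR (ES g d s₀ (th1 n w d s₀ s) f (i + 1)) (f i) a) ∧
        ∀ p ∈ KerS g d s₀ (th1 n w d s₀ s) (BR (ES g d s₀ (th1 n w d s₀ s) f i) (f i) a), Hit g F p

/-- CRM: the value of a gate is a derived inequality. -/
def T_CRM : Prop :=
  ∀ {n : ℕ} (Φ : Set (Clause n)) (t s : ℕ) (h : ℕ → Set (Clause n) → ℝ), 1 ≤ t →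
    Circuit t s h → ∀ (i : ℕ) (a : ℝ), i < s → a ≤ h i Φ →
      DerivesR Φ (fun j x => h j (SatBy x)) ∅ t 1 i a

/-! ### Assembly -/

/-- ABM: part (1). -/
def T_ABM : Prop :=
  ∀ {n M k μ : ℕ} (g : Fin M → Fin k → Fin n) (γ : ℝ) (t w d s₀ q : ℕ),
    (∀ j, Function.Injective (g j)) → H1 g w s₀ → ParM γ n t k μ w d s₀ q →
    ∀ (𝓛 𝓠 : Finset (Line n)) (s : ℕ) (L : Line n), 𝓠.card ≤ 2 ^ t → 1 ≤ s →
      Few γ n t (𝓛.card * s) (Nat.card {x // x ∉ L})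
        (Nat.card {σ : Signs n M μ // DerivesL (Set.range (cf g (FG g σ))) 𝓛 𝓠 t s L})
        (Nat.card (Signs n M μ))

/-- ARM: part (2). -/
def T_ARM : Prop :=
  ∀ {n M k μ : ℕ} (g : Fin M → Fin k → Fin n) (γ : ℝ) (t w d s₀ q : ℕ),
    (∀ j, Function.Injective (g j)) → H1 g w s₀ → ParM γ n t k μ w d s₀ q →
    ∀ (𝓠 : Finset (Line n)) (N s : ℕ) (f : ℕ → (Fin n → Bool) → ℝ) (i : ℕ) (a : ℝ),
      𝓠.card ≤ 2 ^ t → 1 ≤ s → i < N →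
      Few γ n t (N * s) (Nat.card {x // f i x < a})
        (Nat.card {σ : Signs n M μ // DerivesR (Set.range (cf g (FG g σ))) f 𝓠 t s i a})
        (Nat.card (Signs n M μ))

/-- NMM: the parameters. -/
def T_NMM : Prop :=
  ∃ C : ℕ, ∀ (ε β : ℝ) (n t k μ : ℕ), 0 < ε → ε < β → β ≤ 1 → 2 ≤ t → n ≤ t →
    C * Nat.log 2 t ≤ ε ^ 2 * k → C * k ≤ ε * n → C * t ^ 2 * μ ≤ 2 ^ k →
      ∃ w d s₀ q : ℕ, ParM (β - ε) n t k μ w d s₀ q ∧ (w + k : ℝ) ≤ β * n ∧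
        2 * (n : ℝ) ≤ ε * k * (s₀ + 1)

/-- GDM: scopes with `H1` are good. -/
def T_GDM : Prop :=
  ∀ {n k M μ : ℕ} (γ : ℝ) (t w d s₀ q : ℕ), ParM γ n t k μ w d s₀ q →
    ∀ e : Scopes n k M, H1 (en e) w s₀ → Good γ t μ e

/-- FNM: the final statement. -/
def T_FNM : Prop := Main

end Pool.Agent.H53.MW
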