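import Pool.Agent.H15.FLX.All
import Pool.Agent.H53.MW.FNM
import Pool.Agent.H50.MWK.ABM
import Pool.Agent.H20.MWK.ARM
import Pool.Agent.H20.MWK.NMM
import Pool.Agent.H36.MW.A
import Pool.Agent.H38.MW.CRM
import Pool.Agent.H42.MWK.DEC
import Pool.Agent.H57.MWK.DTR
import Pool.Agent.H57.MWK.EBS
import Pool.Agent.H1.MWK.GDM
import Pool.Agent.H1.MWK.LOS
import Pool.Agent.H75.MWK.HC
import Pool.Agent.H64.MWK.HTS
import Pool.Agent.H64.MWK.SC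
import Pool.Agent.H13.MWK.INV
import Pool.Agent.H69.MW.KSX
import Pool.Agent.H31.MWK.LKS
import Pool.Agent.H40.MWK.LSS
import Pool.Agent.H40.MWK.LXS
import Pool.Agent.H5.MW.MGF
import Pool.Agent.H86.MW.SES
import Pool.Agent.H86.MW.PRM
import Pool.Agent.H49.MWK.QPC
import Pool.Agent.H91.MWK.REG
import Pool.Agent.H76.MW.SV
import Pool.Agent.H11.MWK.SZ
import Pool.Agent.H39.MWK.TRE
import Pool.Agent.H60.SHL.SEQ
import Pool.Agent.H68.SHL.BLM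
import Pool.Agent.H41.MC.CAP
import Pool.Agent.H53.MC.TOC

/-!
MP_c62aed_lc, permanent lines and work memory: composition of the rows.
-/

set_option autoImplicit false

namespace Pool.Agent.H53.MW

theorem main : Main := by
  have hINV : T_INV := Pool.Agent.H13.MWK.pf_INV
  have hHC : T_HC := Pool.Agent.H75.MWK.pf_HC
  have hSZ : T_SZ := Pool.Agent.H11.MWK.pf_SZ
  have hSV : T_SV := Pool.Agent.H76.MW.pf_SV
  have hSC : T_SC := Pool.Agent.H64.MWK.pf_SC hSV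
  have hDEC : T_DEC := Pool.Agent.H42.MWK.pf_DEC hINV hHC
  have hKSX : T_KSX := Pool.Agent.H69.MW.pf_KSX hSZ
  have hLXS : T_LXS := Pool.Agent.H40.MWK.pf_LXS hINV hHC
  have hLSS : T_LSS := Pool.Agent.H40.MWK.pf_LSS hLXS
  have hEBS : T_EBS := Pool.Agent.H57.MWK.pf_EBS hLXS
  have hCHN : T_CHN := Pool.Agent.H36.MW.pf_CHN
  have hLKS : T_LKS := Pool.Agent.H31.MWK.pf_LKS
  have hMGF : T_MGF := Pool.Agent.H5.MW.pf_MGF
  have hLOS : T_LOS := Pool.Agent.H1.MWK.pf_LOS hSV hMGF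
  have hQPC : T_QPC := Pool.Agent.H49.MWK.pf_QPC
  have hREG : T_REG := Pool.Agent.H91.MWK.pf_REG Pool.Agent.H68.SHL.pf_BLM hINV hSZ hDEC hLOS
  have hTRE : T_TRE := Pool.Agent.H39.MWK.pf_TRE hINV hSZ hSC hDEC
  have hDTR : T_DTR := Pool.Agent.H57.MWK.pf_DTR
  have hHTS : T_HTS := Pool.Agent.H64.MWK.pf_HTS hINV hTRE hDTR
  have hSES : T_SES := Pool.Agent.H86.MW.pf_SES Pool.Agent.H53.MC.pf_TOC
    Pool.Agent.H60.SHL.pf_SEQ hDTR
  have hPLM : T_PLM := Pool.Agent.H36.MW.pf_PLM hSES hHTS hLKS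
  have hPRM : T_PRM := Pool.Agent.H86.MW.pf_PRM hSES hHTS hLKS
  have hCRM : T_CRM := Pool.Agent.H38.MW.pf_CRM
  have hL : Pool.Agent.H15.FLX.T_LFX := Pool.Agent.H19.FLX.pf_LFX Pool.Agent.H15.FLX.pf_RS
  have hH : Pool.Agent.H15.FLX.T_HTX := Pool.Agent.H27.FLX.pf_HTX Pool.Agent.H15.FLX.pf_RS
  have hABM : T_ABM := Pool.Agent.H50.MWK.pf_ABM Pool.Agent.H41.MC.pf_CAP hL hH hKSX hLSS hQPC
    hREG hPLM
  have hARM : T_ARM := Pool.Agent.H20.MWK.pf_ARM Pool.Agent.H41.MC.pf_CAP hL hH hKSX hEBS hCHN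
    hQPC hREG hPRM
  have hGDM : T_GDM := Pool.Agent.H1.MWK.pf_GDM Pool.Agent.H15.FLX.pf_CLS hABM hARM hCRM
  exact pf_FNM hGDM (Pool.Agent.H40.FLX.pf_EXX Pool.Agent.H19.FLX.pf_SUB)
    Pool.Agent.H20.MWK.pf_NMM Pool.Agent.H5.FLX.pf_CHX

end Pool.Agent.H53.MW
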