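import Pool.Agent.H53.MW.Stmt
import Pool.Agent.H15.FLX.Targets
import Pool.Agent.H97.SHL.Targets

/-!
MP_c62aed_lc: definitions used in the proof (not in the statement) of `Pool.Agent.H53.MW.Main`.
-/

set_option autoImplicit false

namespace Pool.Agent.H53.MW

open Finset
open Pool.Agent.H53.MC (Clause Falsified SatBy Line Circuit U Viol toC scope Ins cnt H1 Covers InR
  Bad cf)
open Pool.Agent.H15.FLX (Scopes Signs clause cnf Few en idx FG BR)
open Pool.Agent.H97.SHL (DT bl)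

section

variable {n M k : ℕ} (g : Fin M → Fin k → Fin n)

/-- The weight of a set of variables. -/
def wt (d s₀ : ℕ) (A : Finset (Fin n)) : ℕ := 2 ^ (d * min (cnt g A) s₀)

/-- The points of `Q` which agree with `x` on `A`. -/
def cb (Q : Finset (Fin n → Bool)) (A : Finset (Fin n)) (x : Fin n → Bool) :
    Finset (Fin n → Bool) := Q.filter fun y => ∀ i ∈ A, y i = x i

/-- `Q` lies in the cube `p = (A, x)` and is spread there. -/
structure Sp (d s₀ : ℕ) (p : Finset (Fin n) × (Fin n → Bool)) (Q : Finset (Fin n → Bool)) :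
    Prop where
  ne : Q.Nonempty
  inc : ∀ y ∈ Q, ∀ i ∈ p.1, y i = p.2 i
  spr : ∀ (A : Finset (Fin n)) (x : Fin n → Bool), p.1 ⊆ A →
    (cb Q A x).card * wt g d s₀ A ≤ Q.card * wt g d s₀ p.1

/-- The spread kernel of `B`. -/
def KerS (d s₀ θ : ℕ) (B : Finset (Fin n → Bool)) : Set (Finset (Fin n) × (Fin n → Bool)) :=
  {p | ∃ Q : Finset (Fin n → Bool), Q ⊆ B ∧ Sp g d s₀ p Q ∧ θ ≤ Q.card}

open Classical in
/-- The exceptions of `B`. -/
noncomputable def ErrS (d s₀ θ : ℕ) (B : Finset (Fin n → Bool)) : Finset (Fin n → Bool) :=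
  B.filter fun x => ∀ A : Finset (Fin n), (A, x) ∉ KerS g d s₀ θ B

/-- A decomposition of `R` into parts `(Q, A)`: they are disjoint, spread and have at least `θ`
points; at most `τ` points of `R` are left. -/
structure Dec (d s₀ θ τ : ℕ) (R : Finset (Fin n → Bool))
    (𝒟 : Finset (Finset (Fin n → Bool) × Finset (Fin n))) : Prop where
  sub : ∀ p ∈ 𝒟, p.1 ⊆ R
  dis : ∀ p ∈ 𝒟, ∀ p' ∈ 𝒟, p ≠ p' → Disjoint p.1 p'.1
  spr : ∀ p ∈ 𝒟, ∀ x ∈ p.1, Sp g d s₀ (p.2, x) p.1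
  big : ∀ p ∈ 𝒟, θ ≤ p.1.card
  rest : (R \ 𝒟.biUnion Prod.fst).card ≤ τ

open Classical in
/-- The chosen decomposition of `R` (it exists by the row DEC). -/
noncomputable def dc (d s₀ θ : ℕ) (R : Finset (Fin n → Bool)) :
    Finset (Finset (Fin n → Bool) × Finset (Fin n)) :=
  if h : ∃ 𝒟, Dec g d s₀ θ (θ * 2 ^ (d * s₀)) R 𝒟 then h.choose else ∅

/-- Some clause of `F` is inside `p`. -/
def Hit {m : ℕ} (F : Fin m → U M k) (p : Finset (Fin n) × (Fin n → Bool)) : Prop :=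
  ∃ j, Ins g p (F j)

open Classical in
/-- The union of the parts of `𝒟` which are hit. -/
noncomputable def hp {m : ℕ} (F : Fin m → U M k)
    (𝒟 : Finset (Finset (Fin n → Bool) × Finset (Fin n))) : Finset (Fin n → Bool) :=
  (𝒟.filter fun p => ∃ x ∈ p.1, Hit g F (p.2, x)).biUnion Prod.fst

open Classical in
/-- The union of the parts of `𝒟` which are not hit. -/
noncomputable def up {m : ℕ} (F : Fin m → U M k)
    (𝒟 : Finset (Finset (Fin n → Bool) × Finset (Fin n))) : Finset (Fin n → Bool) :=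
  (𝒟.filter fun p => ¬ ∃ x ∈ p.1, Hit g F (p.2, x)).biUnion Prod.fst

/-- The part `p` is hit, or at most the fraction `1 / a` of its points is in hit parts of `𝒟`. -/
def Rg {m : ℕ} (F : Fin m → U M k) (a : ℕ) (p : Finset (Fin n → Bool) × Finset (Fin n))
    (𝒟 : Finset (Finset (Fin n → Bool) × Finset (Fin n))) : Prop :=
  (∃ x ∈ p.1, Hit g F (p.2, x)) ∨ a * (p.1 ∩ hp g F 𝒟).card ≤ p.1.card

/-- The formula `F` is regular for all regions of `Q` given by at most `n` queries. -/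
structure Rgl {m : ℕ} (d s₀ θ : ℕ) (𝒬 : Finset (Finset (Fin n → Bool))) (F : Fin m → U M k)
    (A : Finset (Fin n)) (Q : Finset (Fin n → Bool)) : Prop where
  root : Rg g F (4 * (n + 1)) (Q, A) (dc g d s₀ θ Q)
  node : ∀ R ∈ bl 𝒬 n {Q}, ∀ R' ∈ bl 𝒬 n {Q}, ∀ p ∈ dc g d s₀ θ R,
    Rg g F (4 * (n + 1)) p (dc g d s₀ θ R')

/-- The formula `F` is regular for the sets of the family `𝓕`: `θ₁` is the bound for the size of the
witnesses, `θ₀` the bound for the parts. -/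
def Reg {m : ℕ} (d s₀ θ₀ θ₁ : ℕ) (𝒬 : Finset (Finset (Fin n → Bool)))
    (𝓕 : Finset (Finset (Fin n → Bool))) (F : Fin m → U M k) : Prop :=
  ∀ B ∈ 𝓕, ∀ p ∈ KerS g d s₀ θ₁ B, ∃ Q : Finset (Fin n → Bool), Q ⊆ B ∧ Sp g d s₀ p Q ∧
    θ₁ ≤ Q.card ∧ Rgl g d s₀ θ₀ 𝒬 F p.1 Q

/-- `R` is covered by at most `r` clauses of `F`. -/
def Lfc {m : ℕ} (F : Fin m → U M k) (r : ℕ) (R : Finset (Fin n → Bool)) : Prop :=
  ∃ T : Finset (U M k), InR F T ∧ T.card ≤ r ∧ Covers g T R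

open Classical in
/-- The exceptions of the functions before the function `i`. -/
noncomputable def ES (d s₀ θ : ℕ) (f : ℕ → (Fin n → Bool) → ℝ) : ℕ → Finset (Fin n → Bool)
  | 0 => ∅
  | i + 1 => ES d s₀ θ f i ∪
      univ.filter fun x => ∃ a : ℝ, x ∈ ErrS g d s₀ θ (BR (ES d s₀ θ f i) (f i) a)

/-- The chain of the kernels of the function `i`. -/
def KS (d s₀ θ : ℕ) (f : ℕ → (Fin n → Bool) → ℝ) (i : ℕ) :
    Set (Set (Finset (Fin n) × (Fin n → Bool))) :=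
  {K | ∃ a : ℝ, K = KerS g d s₀ θ (BR (ES g d s₀ θ f i) (f i) a)}

end

open Classical in
/-- The queries: complements of the sets of the points which satisfy at most `t` lines of `𝓠`. -/
noncomputable def qp {n : ℕ} (𝓠 : Finset (Line n)) (t : ℕ) : Finset (Finset (Fin n → Bool)) :=
  (𝓠.powerset.filter fun W => W.card ≤ t).image fun W => (univ.filter fun x => ∀ L ∈ W, x ∈ L)ᶜ

/-- The bound for the parts. -/
def th0 (n w : ℕ) : ℕ := 2 ^ (n - w) + 1

/-- The bound for the witnesses. -/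
def th1 (n w d s₀ s : ℕ) : ℕ := 4 * (th0 n w * 2 ^ (d * s₀)) * s + 1

/-- The conditions on the parameters. -/
structure ParM (γ : ℝ) (n t k μ w d s₀ q : ℕ) : Prop where
  t2 : 2 ≤ t
  n1 : 1 ≤ n
  nt : n ≤ t
  k1 : 1 ≤ k
  kn : k ≤ n
  w1 : 1 ≤ w
  wn : w ≤ n
  q1 : 1 ≤ q
  γ1 : γ ≤ 1
  rr : t * t + t * t * q < 2 ^ d
  dd : 2 ^ 8 * t ^ 4 ≤ 2 ^ d
  tau : 20 * ((2 : ℝ) ^ (d * s₀) * ((2 ^ (n - w) + 1) * 2 ^ (d * s₀))) ≤ 2 ^ ((1 - γ) * n)
  cov : 4 * (q * 2 ^ (n - k)) < 2 ^ n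
  bad : 2 ^ (n + t + 3) * (s₀ * μ) ^ (q + 1) ≤ (2 ^ k) ^ (q + 1)
  hit : 16 * (t * (s₀ * μ)) ≤ 2 ^ k
  los : 16 * (n + 1) * (s₀ * μ) ≤ 2 ^ k

end Pool.Agent.H53.MW
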