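import Pool.Agent.H15.FLX.Stmt

/-!
MP_c62aed_lc: random CNFs, refutations with permanent lines of a fixed family and a bounded work
memory. The definitions used by the statement. `Clause`, `Falsified`, `SatBy`, `Line`, `Circuit` are
those of `Pool/Agent/H53/MC/Stmt.lean`, `Scopes`, `Signs`, `clause`, `cnf`, `Few` are those of
`Pool/Agent/H15/FLX/Stmt.lean`.
-/

set_option autoImplicit false

namespace Pool.Agent.H53.MW

open Pool.Agent.H53.MC (Clause Falsified SatBy Line Circuit)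
open Pool.Agent.H15.FLX (Scopes Signs clause cnf Few)

/-- The line `L` follows from the lines of `W`, at most `t` lines with the property `P` and at most
`t` clauses of the CNF `Φ`. -/
def Follows {n : ℕ} (Φ : Set (Clause n)) (P : Line n → Prop) (t : ℕ) (W : Finset (Line n))
    (L : Line n) : Prop :=
  ∃ (R : Finset (Line n)) (T : Finset (Clause n)), R.card ≤ t ∧ (∀ Q ∈ R, P Q) ∧ T.card ≤ t ∧
    (∀ c ∈ T, c ∈ Φ) ∧
    ∀ x, (∀ Q ∈ W, x ∈ Q) → (∀ Q ∈ R, x ∈ Q) → (∀ c ∈ T, ¬ Falsified c x) → x ∈ L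

/-- The line `L` is obtained in at most `s` steps from the permanent lines, the lines with the
property `P`. The work memory `W j` is empty at the beginning; it always consists of at most `t`
lines of `𝓠`, and in one step every new line of the work memory follows from the old work memory, at
most `t` permanent lines and at most `t` clauses of `Φ`. In the last step `L` follows from them. -/
def Session {n : ℕ} (Φ : Set (Clause n)) (P : Line n → Prop) (𝓠 : Finset (Line n)) (t s : ℕ)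
    (L : Line n) : Prop :=
  ∃ (i : ℕ) (W : ℕ → Finset (Line n)), i < s ∧ W 0 = ∅ ∧ Follows Φ P t (W i) L ∧
    ∀ j, j < i → W (j + 1) ⊆ 𝓠 ∧ (W (j + 1)).card ≤ t ∧
      ∀ Q ∈ W (j + 1), Q ∈ W j ∨ Follows Φ P t (W j) Q

/-- `L` belongs to the smallest set `𝓓` of lines which contains each line of `𝓛` obtained in at most
`s` steps from the lines of `𝓓`. -/
def DerivesL {n : ℕ} (Φ : Set (Clause n)) (𝓛 𝓠 : Finset (Line n)) (t s : ℕ) (L : Line n) : Prop :=
  ∀ 𝓓 : Set (Line n), (∀ L' ∈ 𝓛, Session Φ (fun Q => Q ∈ 𝓓) 𝓠 t s L' → L' ∈ 𝓓) → L ∈ 𝓓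

open Classical in
/-- The line `f ≥ a`. -/
noncomputable def geL {n : ℕ} (f : (Fin n → Bool) → ℝ) (a : ℝ) : Line n :=
  Finset.univ.filter fun x => a ≤ f x

/-- `(i, a)` belongs to the smallest set `𝓓` of pairs which contains `(i', a')` if the line
`f i' ≥ a'` is obtained in at most `s` steps from lines `f j ≥ b` with `(j, b) ∈ 𝓓` and `j < i'`. -/
def DerivesR {n : ℕ} (Φ : Set (Clause n)) (f : ℕ → (Fin n → Bool) → ℝ) (𝓠 : Finset (Line n))
    (t s : ℕ) (i : ℕ) (a : ℝ) : Prop :=
  ∀ 𝓓 : Set (ℕ × ℝ), (∀ (i' : ℕ) (a' : ℝ),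
    Session Φ (fun Q => ∃ j b, j < i' ∧ (j, b) ∈ 𝓓 ∧ Q = geL (f j) b) 𝓠 t s (geL (f i') a') →
      (i', a') ∈ 𝓓) → (i, a) ∈ 𝓓

/-- The scopes `e` are good: for random signs of `μ` clauses on each scope, few of the CNFs
(1) allow to derive a given line `L` with permanent lines of a given family `𝓛`, a work memory of at
most `t` lines of a given family `𝓠` of at most `2 ^ t` lines, and at most `s` steps between two
permanent lines,
(2) allow to derive a given inequality `f i ≥ a` in the same way with permanent lines `f j ≥ b`, for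
given functions `f 0, .., f (N - 1)`,
(3) are accepted by a given monotone real circuit with `s` gates of fan-in at most `t` (the gate
`i` accepts when its value is at least `a`), where `b` is the number of the assignments `x` for
which the set of all clauses satisfied by `x` is rejected. -/
def Good {n k M : ℕ} (γ : ℝ) (t μ : ℕ) (e : Scopes n k M) : Prop :=
  (∀ (𝓛 𝓠 : Finset (Line n)) (s : ℕ) (L : Line n), 𝓠.card ≤ 2 ^ t → 1 ≤ s →
    Few γ n t (𝓛.card * s) (Nat.card {x // x ∉ L})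
      (Nat.card {σ : Signs n M μ // DerivesL (cnf e σ) 𝓛 𝓠 t s L}) (Nat.card (Signs n M μ))) ∧
  (∀ (𝓠 : Finset (Line n)) (N s : ℕ) (f : ℕ → (Fin n → Bool) → ℝ) (i : ℕ) (a : ℝ),
    𝓠.card ≤ 2 ^ t → 1 ≤ s → i < N →
    Few γ n t (N * s) (Nat.card {x // f i x < a})
      (Nat.card {σ : Signs n M μ // DerivesR (cnf e σ) f 𝓠 t s i a}) (Nat.card (Signs n M μ))) ∧
  ∀ (s : ℕ) (h : ℕ → Set (Clause n) → ℝ), Circuit t s h → ∀ (i : ℕ) (a : ℝ), i < s →
    Few γ n t s (Nat.card {x // h i (SatBy x) < a})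
      (Nat.card {σ : Signs n M μ // a ≤ h i (cnf e σ)}) (Nat.card (Signs n M μ))

/-- The final statement. -/
def Main : Prop :=
  ∃ C : ℕ, ∀ (ε β : ℝ) (n t k M μ : ℕ), 0 < ε → ε < β → β ≤ 1 → 2 ≤ t → n ≤ t →
    C * Nat.log 2 t ≤ ε ^ 2 * k → C * k ≤ ε * n →
      (M * β ^ k ≤ 2 ^ (-(ε * k)) → C * t ^ 2 * μ ≤ 2 ^ k →
        2 ^ n * Nat.card {e : Scopes n k M // ¬ Good (β - ε) t μ e} ≤
          Nat.card (Scopes n k M)) ∧
      (C * t * 2 ^ k ≤ ε ^ 2 * M * μ → ∀ e : Scopes n k M,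
        2 ^ t * Nat.card {σ : Signs n M μ // ∃ x, (Nat.card {j // Falsified (clause e σ j) x} : ℝ) <
          (1 - ε) * M * μ / 2 ^ k} ≤ Nat.card (Signs n M μ))

end Pool.Agent.H53.MW
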